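import Pool.Agent.MP_807c24_nt.H47.Ser

/-! Basic facts on multiple polylogarithms. -/

namespace Pool.Agent.MP_807c24_nt.H47

open Finset Pool.Agent.MP_807c24_nt.H28 Filter Topology

lemma abs_coef (w : List Bool) : ∀ k, |coef w k| ≤ 1 := by
  induction w with
  | nil => intro k; simp only [coef]; split_ifs <;> simp
  | cons a w ih =>
    cases a
    · exact abs_op0 ih
    · exact abs_op1 ih

lemma coef_nonneg (w : List Bool) : ∀ k, 0 ≤ coef w k := by
  induction w with
  | nil => intro k; simp only [coef]; split_ifs <;> simp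
  | cons a w ih =>
    intro k
    cases a
    · exact div_nonneg (ih k) (Nat.cast_nonneg _)
    · exact div_nonneg (sum_nonneg fun j _ => ih j) (Nat.cast_nonneg _)

lemma coef_zero (a : Bool) (w : List Bool) : coef (a :: w) 0 = 0 := by
  cases a <;> simp [coef, op0, op1]

lemma coef_zero' {w : List Bool} (h : w ≠ []) : coef w 0 = 0 := by
  obtain ⟨a, w, rfl⟩ := List.exists_cons_of_ne_nil h
  exact coef_zero a w

lemma good_tail {a : Bool} {w : List Bool} (h : good (a :: w)) : good w := by
  cases a
  · exact h.2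
  · exact h

lemma good_cons (a : Bool) {w : List Bool} (h : good w) (h' : w ≠ []) : good (a :: w) := by
  cases a
  · exact ⟨h', h⟩
  · exact h

lemma sh_len (u v : List Bool) : ∀ w ∈ sh u v, w.length = u.length + v.length := by
  induction u, v using sh.induct with
  | case1 v => simp [sh]
  | case2 a u => simp [sh]
  | case3 a u b v ih1 ih2 =>
    intro w hw
    simp only [sh, List.mem_append, List.mem_map] at hw
    rcases hw with ⟨w, hw, rfl⟩ | ⟨w, hw, rfl⟩
    · have := ih1 w hw
      simp only [List.length_cons] at this ⊢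
      omega
    · have := ih2 w hw
      simp only [List.length_cons] at this ⊢
      omega

lemma sh_ne_left {u v w : List Bool} {b : Bool} (h : w ∈ sh u (b :: v)) : w ≠ [] := by
  rintro rfl
  have := sh_len _ _ _ h
  simp at this

lemma sh_ne_right {u v w : List Bool} {a : Bool} (h : w ∈ sh (a :: u) v) : w ≠ [] := by
  rintro rfl
  have := sh_len _ _ _ h
  simp only [List.length_cons, List.length_nil] at this
  omega

lemma sh_dep (u v : List Bool) : ∀ w ∈ sh u v, dep w = dep u + dep v := by
  induction u, v using sh.induct with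
  | case1 v => simp [sh, dep]
  | case2 a u => simp [sh, dep]
  | case3 a u b v ih1 ih2 =>
    intro w hw
    simp only [sh, List.mem_append, List.mem_map] at hw
    rcases hw with ⟨w, hw, rfl⟩ | ⟨w, hw, rfl⟩
    · have := ih1 w hw
      simp only [dep, List.count_cons] at this ⊢
      omega
    · have := ih2 w hw
      simp only [dep, List.count_cons] at this ⊢
      omega

lemma sh_good (u v : List Bool) : good u → good v → ∀ w ∈ sh u v, good w := by
  induction u, v using sh.induct with
  | case1 v => intro _ hv; simpa [sh] using hv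
  | case2 a u => intro hu _; simpa [sh] using hu
  | case3 a u b v ih1 ih2 =>
    intro hu hv w hw
    simp only [sh, List.mem_append, List.mem_map] at hw
    rcases hw with ⟨w, hw, rfl⟩ | ⟨w, hw, rfl⟩
    · exact good_cons a (ih1 (good_tail hu) hv w hw) (sh_ne_left hw)
    · exact good_cons b (ih2 hu (good_tail hv) w hw) (sh_ne_right hw)

lemma sh_card (u v : List Bool) : (sh u v).length ≤ 2 ^ (u.length + v.length) := by
  induction u, v using sh.induct with
  | case1 v => simpa [sh] using Nat.one_le_two_pow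
  | case2 a u => simpa [sh] using Nat.one_le_two_pow
  | case3 a u b v ih1 ih2 =>
    simp only [sh, List.length_append, List.length_map, List.length_cons] at ih1 ih2 ⊢
    rw [show u.length + 1 + (v.length + 1) = u.length + v.length + 1 + 1 by ring, pow_succ]
    rw [show u.length + (v.length + 1) = u.length + v.length + 1 by ring] at ih1
    rw [show u.length + 1 + v.length = u.length + v.length + 1 by ring] at ih2
    omega

lemma sh_head {u v : List Bool} (hu : u.head? ≠ some true) (hv : v.head? ≠ some true) :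
    ∀ w ∈ sh u v, w.head? ≠ some true := by
  intro w hw
  rcases u with _ | ⟨a, u⟩
  · simp only [sh, List.mem_singleton] at hw
    rwa [hw]
  rcases v with _ | ⟨b, v⟩
  · simp only [sh, List.mem_singleton] at hw
    rwa [hw]
  simp only [sh, List.mem_append, List.mem_map] at hw
  rcases hw with ⟨w, -, rfl⟩ | ⟨w, -, rfl⟩
  · simpa using hu
  · simpa using hv

lemma Li_nil (s : ℝ) : Li [] s = 1 := by
  rw [Li, ser, tsum_eq_single 0]
  · simp [coef]
  · intro k hk
    simp [coef, hk]

lemma Li_zero (a : Bool) (w : List Bool) : Li (a :: w) 0 = 0 := by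
  rw [Li, ser_zero, coef_zero]

lemma Li_nonneg (w : List Bool) {s : ℝ} (hs : 0 ≤ s) : 0 ≤ Li w s :=
  tsum_nonneg fun k => mul_nonneg (coef_nonneg w k) (pow_nonneg hs k)

lemma Li_contAt (w : List Bool) {s : ℝ} (h0 : 0 ≤ s) (h1 : s < 1) : ContinuousAt (Li w) s :=
  (ser_deriv (abs_coef w) (by rwa [abs_of_nonneg h0])).continuousAt

/-- the differential form of a letter -/
noncomputable def om (a : Bool) (s : ℝ) : ℝ := if a then (1 - s)⁻¹ else s⁻¹

lemma Li_deriv {a : Bool} {w : List Bool} (h : good (a :: w)) {s : ℝ} (hs : s ∈ Set.Ioo (0:ℝ) 1) :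
    HasDerivAt (Li (a :: w)) (om a s * Li w s) s := by
  cases a
  · refine (deriv_op0 (abs_coef w) hs).congr_deriv ?_
    rw [coef_zero' h.1, sub_zero, div_eq_inv_mul]
    rfl
  · refine (deriv_op1 (abs_coef w) hs).congr_deriv ?_
    rw [div_eq_inv_mul]
    rfl

lemma Li_list_deriv (a : Bool) (l : List (List Bool)) (h : ∀ w ∈ l, good (a :: w)) {s : ℝ}
    (hs : s ∈ Set.Ioo (0:ℝ) 1) : HasDerivAt (fun s => (l.map fun w => Li (a :: w) s).sum)
      (om a s * (l.map fun w => Li w s).sum) s := by
  induction l with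
  | nil => simpa using hasDerivAt_const s (0:ℝ)
  | cons w l ih =>
    simp only [List.map_cons, List.sum_cons, mul_add]
    exact (Li_deriv (h w List.mem_cons_self) hs).add (ih fun w hw => h w (List.mem_cons_of_mem _ hw))

lemma list_contOn {l : List (List Bool)} {A : Set ℝ} (h : ∀ w ∈ l, ContinuousOn (Li w) A) :
    ContinuousOn (fun s => (l.map fun w => Li w s).sum) A := by
  induction l with
  | nil => simpa using continuousOn_const
  | cons w l ih =>
    simp only [List.map_cons, List.sum_cons]
    exact (h w List.mem_cons_self).add (ih fun w hw => h w (List.mem_cons_of_mem _ hw))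

lemma Li_shuffle (u v : List Bool) : good u → good v → ∀ s ∈ Set.Ioo (0:ℝ) 1,
    Li u s * Li v s = ((sh u v).map (fun w => Li w s)).sum := by
  induction u, v using sh.induct with
  | case1 v => intro _ _ s _; simp [sh, Li_nil]
  | case2 a u => intro _ _ s _; simp [sh, Li_nil]
  | case3 a u b v ih1 ih2 =>
    intro hu hv s hs
    have hc : ∀ w, ContinuousOn (Li w) (Set.Icc 0 s) := fun w x hx =>
      (Li_contAt w hx.1 (hx.2.trans_lt hs.2)).continuousWithinAt
    have e : ∀ x, ((sh (a :: u) (b :: v)).map fun w => Li w x).sum =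
        ((sh u (b :: v)).map fun w => Li (a :: w) x).sum +
          ((sh (a :: u) v).map fun w => Li (b :: w) x).sum := fun x => by
      simp [sh, Function.comp_def]
    obtain ⟨x, -, hx⟩ := exists_hasDerivAt_eq_slope
      (fun x => Li (a :: u) x * Li (b :: v) x - ((sh (a :: u) (b :: v)).map fun w => Li w x).sum)
      (fun _ => 0) hs.1 (((hc _).mul (hc _)).sub (list_contOn fun w _ => hc w)) (fun x hx => by
        have hx' : x ∈ Set.Ioo (0:ℝ) 1 := ⟨hx.1, hx.2.trans hs.2⟩
        simp only [e]
        refine (((Li_deriv hu hx').mul (Li_deriv hv hx')).sub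
          ((Li_list_deriv a _ (fun w hw => good_cons a (sh_good _ _ (good_tail hu) hv w hw)
            (sh_ne_left hw)) hx').add (Li_list_deriv b _ (fun w hw =>
            good_cons b (sh_good _ _ hu (good_tail hv) w hw) (sh_ne_right hw)) hx'))).congr_deriv ?_
        rw [← ih1 (good_tail hu) hv x hx', ← ih2 hu (good_tail hv) x hx']
        ring)
    rw [eq_comm, div_eq_zero_iff, or_iff_left (by linarith [hs.1]), e 0] at hx
    simp only [Li_zero, List.map_const', List.sum_replicate, smul_zero] at hx
    linarith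

lemma sum_inv_sqrt (k : ℕ) : ∑ j ∈ range k, (√((j : ℝ) + 1))⁻¹ ≤ 2 * √(k : ℝ) := by
  induction k with
  | zero => simp
  | succ k ih =>
    rw [sum_range_succ]
    push_cast
    have h1 : 0 < √((k : ℝ) + 1) := Real.sqrt_pos.2 (by positivity)
    have h2 : √((k : ℝ) + 1) ^ 2 = k + 1 := Real.sq_sqrt (by positivity)
    have h3 : √(k : ℝ) ^ 2 = k := Real.sq_sqrt (by positivity)
    have h4 : (√((k : ℝ) + 1))⁻¹ ≤ 2 * √((k : ℝ) + 1) - 2 * √(k : ℝ) := by
      rw [inv_eq_one_div, div_le_iff₀ h1]
      nlinarith [sq_nonneg (√((k : ℝ) + 1) - √(k : ℝ))]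
    linarith

lemma coef_le (w : List Bool) : ∀ k : ℕ, coef w k ≤ 3 ^ w.length * (√((k : ℝ) + 1))⁻¹ := by
  induction w with
  | nil =>
    intro k
    simp only [coef]
    split_ifs with h
    · simp [h]
    · positivity
  | cons a w ih =>
    intro k
    rcases Nat.eq_zero_or_pos k with rfl | hk
    · rw [coef_zero]
      positivity
    have hk1 : (1 : ℝ) ≤ k := by exact_mod_cast hk
    have hp : (0 : ℝ) < 3 ^ w.length := by positivity
    have h1 : 0 < √((k : ℝ) + 1) := Real.sqrt_pos.2 (by positivity)
    rw [List.length_cons, pow_succ]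
    cases a
    · refine (div_le_self (coef_nonneg w k) hk1).trans ((ih k).trans ?_)
      gcongr
      linarith
    · have h2 : ∑ j ∈ range k, coef w j ≤ 3 ^ w.length * (2 * √(k : ℝ)) := by
        refine (sum_le_sum fun j _ => ih j).trans ?_
        rw [← mul_sum]
        exact mul_le_mul_of_nonneg_left (sum_inv_sqrt k) hp.le
      refine (div_le_div_of_nonneg_right h2 (by positivity)).trans ?_
      rw [mul_div_assoc, mul_assoc]
      refine mul_le_mul_of_nonneg_left ?_ hp.le
      have h3 : √((k : ℝ) + 1) ^ 2 = k + 1 := Real.sq_sqrt (by positivity)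
      have h4 : √(k : ℝ) ^ 2 = k := Real.sq_sqrt (by positivity)
      have h5 : 0 < √(k : ℝ) := Real.sqrt_pos.2 (by positivity)
      have h6 : 2 * √((k : ℝ) + 1) ≤ 3 * √(k : ℝ) :=
        abs_le_of_sq_le_sq' (by nlinarith) (by positivity) |>.2
      rw [← div_eq_mul_inv, div_le_div_iff₀ (by positivity) h1]
      nlinarith

lemma summable_div (w : List Bool) : Summable fun k : ℕ => coef w k / ((k : ℝ) + 1) := by
  have h : Summable fun k : ℕ => (((k + 1 : ℕ) : ℝ) ^ (3 / 2 : ℝ))⁻¹ :=
    (summable_nat_add_iff 1).2 (Real.summable_nat_rpow_inv.2 (by norm_num))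
  refine Summable.of_nonneg_of_le (fun k => div_nonneg (coef_nonneg w k) (by positivity))
    (fun k => ?_) (h.mul_left (3 ^ w.length))
  refine (div_le_div_of_nonneg_right (coef_le w k) (by positivity)).trans_eq ?_
  push_cast
  rw [show (3 / 2 : ℝ) = 1 / 2 + 1 by norm_num, Real.rpow_add (by positivity), Real.rpow_one,
    ← Real.sqrt_eq_rpow, mul_inv, div_eq_mul_inv, mul_assoc]

lemma summable_false (w : List Bool) : Summable (coef (false :: w)) := by
  refine Summable.of_nonneg_of_le (coef_nonneg _) (fun k => ?_) ((summable_div w).mul_left 2)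
  rcases Nat.eq_zero_or_pos k with rfl | hk
  · rw [coef_zero]
    exact mul_nonneg zero_le_two (div_nonneg (coef_nonneg _ _) (by positivity))
  · have hk1 : (1 : ℝ) ≤ k := by exact_mod_cast hk
    change coef w k / k ≤ _
    rw [← mul_div_assoc, div_le_div_iff₀ (by positivity) (by positivity)]
    nlinarith [coef_nonneg w k]

lemma Li_contOn {w : List Bool} (h : w.head? ≠ some true) :
    ContinuousOn (Li w) (Set.Icc 0 1) ∧ Li w 1 = zx w := by
  rcases w with _ | ⟨_ | _, w⟩
  · exact ⟨by rw [funext Li_nil]; exact continuousOn_const, Li_nil 1⟩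
  · refine ⟨ser_contOn ((summable_false w).congr fun k => (abs_of_nonneg (coef_nonneg _ k)).symm),
      ?_⟩
    simp [Li, ser, zx]
  · simp at h

lemma zx_shuffle {u v : List Bool} (hu : good u) (hv : good v) (hu' : u.head? ≠ some true)
    (hv' : v.head? ≠ some true) : zx u * zx v = ((sh u v).map zx).sum := by
  have h1 : ContinuousOn (fun s => Li u s * Li v s) (Set.Icc 0 1) :=
    (Li_contOn hu').1.mul (Li_contOn hv').1
  have h2 := list_contOn fun w hw => (Li_contOn (sh_head hu' hv' w hw)).1
  have h3 : Set.EqOn (fun s => Li u s * Li v s) (fun s => ((sh u v).map fun w => Li w s).sum)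
      (Set.Icc 0 1) :=
    Set.EqOn.of_subset_closure (Li_shuffle u v hu hv) h1 h2 Set.Ioo_subset_Icc_self
      (by rw [closure_Ioo zero_ne_one])
  have h4 := h3 (Set.right_mem_Icc.2 zero_le_one)
  simp only at h4
  rw [(Li_contOn hu').2, (Li_contOn hv').2] at h4
  rw [h4]
  exact congrArg List.sum (List.map_congr_left fun w hw => (Li_contOn (sh_head hu' hv' w hw)).2)

lemma coef_pos (w : List Bool) : good w → ∃ k, 0 < coef w k := by
  induction w with
  | nil => exact fun _ => ⟨0, by simp [coef]⟩
  | cons a w ih =>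
    intro h
    obtain ⟨k, hk⟩ := ih (good_tail h)
    cases a
    · have : k ≠ 0 := by
        rintro rfl
        rw [coef_zero' h.1] at hk
        exact lt_irrefl _ hk
      exact ⟨k, div_pos hk (by positivity)⟩
    · refine ⟨k + 1, div_pos ?_ (by positivity)⟩
      exact hk.trans_le (single_le_sum (fun j _ => coef_nonneg w j) (self_mem_range_succ k))

lemma zx_pos {w : List Bool} (h : good w) (h' : w.head? ≠ some true) : 0 < zx w := by
  rcases w with _ | ⟨_ | _, w⟩
  · exact one_pos
  · obtain ⟨k, hk⟩ := coef_pos _ h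
    exact (summable_false w).tsum_pos (coef_nonneg _) k hk
  · simp at h'

/-- coefficients of the primitive -/
noncomputable def prim (w : List Bool) : ℕ → ℝ
  | 0 => 0
  | k + 1 => coef w k / ((k : ℝ) + 1)

lemma prim_nonneg (w : List Bool) : ∀ k, 0 ≤ prim w k
  | 0 => le_rfl
  | k + 1 => div_nonneg (coef_nonneg w k) (by positivity)

lemma summable_prim (w : List Bool) : Summable (prim w) :=
  (summable_nat_add_iff 1).1 (summable_div w)

lemma abs_prim (w : List Bool) : ∀ k, |prim w k| ≤ 1
  | 0 => by simp [prim]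
  | k + 1 => by
    rw [abs_of_nonneg (prim_nonneg w _)]
    exact (div_le_self (coef_nonneg w k) (by simp)).trans ((le_abs_self _).trans (abs_coef w k))

lemma prim_contOn (w : List Bool) : ContinuousOn (ser (prim w)) (Set.Icc 0 1) :=
  ser_contOn ((summable_prim w).congr fun k => (abs_of_nonneg (prim_nonneg w k)).symm)

lemma prim_deriv (w : List Bool) {s : ℝ} (hs : s ∈ Set.Ioo (0:ℝ) 1) :
    HasDerivAt (ser (prim w)) (Li w s) s := by
  refine (ser_deriv (abs_prim w) (by rw [abs_of_pos hs.1]; exact hs.2)).congr_deriv ?_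
  refine tsum_congr fun k => ?_
  rw [prim]
  field_simp

lemma Li_int (w : List Bool) : IntervalIntegrable (Li w) MeasureTheory.volume 0 1 :=
  (intervalIntegrable_iff_integrableOn_Ioc_of_le zero_le_one).2
    (intervalIntegral.integrableOn_deriv_of_nonneg (prim_contOn w) (fun _ hx => prim_deriv w hx)
      fun _ hx => Li_nonneg w hx.1.le)

lemma Li_int' (M : ℕ) (w : List Bool) :
    IntervalIntegrable (fun s => s ^ M * Li w s) MeasureTheory.volume 0 1 :=
  (Li_int w).continuousOn_mul (by fun_prop)

lemma Li_bound (w : List Bool) {s : ℝ} (hs : s ∈ Set.Ioo (0:ℝ) 1) :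
    (1 - s) * Li w s ≤ ser (prim w) 1 - ser (prim w) s := by
  have hs' : |s| < 1 := by rw [abs_of_pos hs.1]; exact hs.2
  have h1 : Summable fun k => prim w k * (1 : ℝ) ^ k := by simpa using summable_prim w
  have h2 := (summable_abs (abs_prim w) hs').of_abs
  rw [ser, ser, ← h1.tsum_sub h2, (h1.sub h2).tsum_eq_zero_add, Li, ser, ← tsum_mul_left]
  simp only [pow_zero, sub_self, zero_add]
  refine Summable.tsum_le_tsum (fun k => ?_) ((summable_abs (abs_coef w) hs').of_abs.mul_left _)
    ((summable_nat_add_iff 1).2 (h1.sub h2))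
  have h3 : ((k : ℝ) + 1) * s ^ k ≤ ∑ l ∈ range (k + 1), s ^ l := by
    have := card_nsmul_le_sum (range (k + 1)) (fun l => s ^ l) (s ^ k) fun l hl =>
      pow_le_pow_of_le_one hs.1.le hs.2.le (Nat.lt_succ_iff.1 (mem_range.1 hl))
    simpa using this
  have h4 : (1 - s) * ∑ l ∈ range (k + 1), s ^ l = 1 - s ^ (k + 1) := mul_neg_geom_sum s (k + 1)
  have h5 : (1 - s) * (((k : ℝ) + 1) * s ^ k) ≤ 1 - s ^ (k + 1) :=
    h4 ▸ mul_le_mul_of_nonneg_left h3 (by linarith [hs.2])
  rw [prim, one_pow, ← mul_sub, div_mul_eq_mul_div, le_div_iff₀ (by positivity)]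
  nlinarith [mul_le_mul_of_nonneg_left h5 (coef_nonneg w k)]

lemma Li_tendsto (w : List Bool) : Tendsto (fun s => (1 - s) * Li w s) (𝓝[<] 1) (𝓝 0) := by
  have hm : Set.Ioo (0:ℝ) 1 ∈ 𝓝[<] (1:ℝ) := Ioo_mem_nhdsLT zero_lt_one
  have h1 : Tendsto (ser (prim w)) (𝓝[<] 1) (𝓝 (ser (prim w) 1)) :=
    (prim_contOn w 1 (Set.right_mem_Icc.2 zero_le_one)).tendsto.mono_left
      (nhdsWithin_le_iff.2 (mem_of_superset hm Set.Ioo_subset_Icc_self))
  have h2 := h1.const_sub (ser (prim w) 1)
  rw [sub_self] at h2
  refine squeeze_zero' ?_ ?_ h2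
  · filter_upwards [hm] with s hs using mul_nonneg (by linarith [hs.2]) (Li_nonneg w hs.1.le)
  · filter_upwards [hm] with s hs using Li_bound w hs

lemma Iw_nil (M : ℕ) : ((M : ℝ) + 1) * Iw M [] = zx [] := by
  simp only [Iw, Li_nil, mul_one, integral_pow, zx]
  field_simp
  simp

lemma Iw_false (M : ℕ) {w : List Bool} (h : good (false :: w)) :
    ((M : ℝ) + 1) * Iw M (false :: w) = zx (false :: w) - Iw M w := by
  have hc := Li_contOn (w := false :: w) (by simp)
  have key := intervalIntegral.integral_eq_sub_of_hasDerivAt_of_le zero_le_one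
    (f := fun s => s ^ (M + 1) * Li (false :: w) s)
    (f' := fun s => ((M : ℝ) + 1) * (s ^ M * Li (false :: w) s) + s ^ M * Li w s)
    (ContinuousOn.mul (by fun_prop) hc.1) (fun s hs => by
      refine ((hasDerivAt_pow (M + 1) s).mul (Li_deriv h hs)).congr_deriv ?_
      have := hs.1.ne'
      simp only [om, Bool.false_eq_true, if_false, Nat.add_sub_cancel]
      push_cast
      field_simp
      ring) (((Li_int' M _).const_mul _).add (Li_int' M w))
  rw [intervalIntegral.integral_add ((Li_int' M _).const_mul _) (Li_int' M w),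
    intervalIntegral.integral_const_mul, hc.2, Li_zero, one_pow, one_mul, mul_zero] at key
  simp only [Iw]
  linarith

lemma Iw_true (M : ℕ) {w : List Bool} (h : good w) :
    ((M : ℝ) + 1) * Iw M (true :: w) = ∑ l ∈ range (M + 1), Iw l w := by
  have hi : IntervalIntegrable (fun s => ∑ l ∈ range (M + 1), s ^ l * Li w s)
      MeasureTheory.volume 0 1 := by
    have := IntervalIntegrable.sum (range (M + 1)) fun l _ => Li_int' l w
    rwa [Finset.sum_fn] at this
  have h0 : Tendsto (fun s => (s ^ (M + 1) - 1) * Li (true :: w) s) (𝓝[>] 0) (𝓝 0) := by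
    have : ContinuousAt (fun s => (s ^ (M + 1) - 1) * Li (true :: w) s) 0 :=
      ContinuousAt.mul (by fun_prop) (Li_contAt _ le_rfl zero_lt_one)
    have := this.tendsto.mono_left (nhdsWithin_le_nhds (s := Set.Ioi 0))
    rwa [Li_zero, mul_zero] at this
  have h1 : Tendsto (fun s => (s ^ (M + 1) - 1) * Li (true :: w) s) (𝓝[<] 1) (𝓝 0) := by
    have h2 : ContinuousAt (fun s : ℝ => -∑ l ∈ range (M + 1), s ^ l) 1 := by fun_prop
    have h3 := (h2.tendsto.mono_left (nhdsWithin_le_nhds (s := Set.Iio 1))).mul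
      (Li_tendsto (true :: w))
    rw [mul_zero] at h3
    refine h3.congr fun s => ?_
    rw [← geom_sum_mul s (M + 1)]
    ring
  have key := intervalIntegral.integral_eq_sub_of_hasDerivAt_of_tendsto zero_lt_one
    (f := fun s => (s ^ (M + 1) - 1) * Li (true :: w) s)
    (f' := fun s => ((M : ℝ) + 1) * (s ^ M * Li (true :: w) s) -
      ∑ l ∈ range (M + 1), s ^ l * Li w s) (fun s hs => by
      refine (((hasDerivAt_pow (M + 1) s).sub_const 1).mul
        (Li_deriv (a := true) h hs)).congr_deriv ?_
      have : 1 - s ≠ 0 := by linarith [hs.2]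
      simp only [om, if_true, Nat.add_sub_cancel]
      rw [← geom_sum_mul s (M + 1), ← sum_mul]
      push_cast
      field_simp
      ring) (((Li_int' M _).const_mul _).sub hi) h0 h1
  rw [intervalIntegral.integral_sub ((Li_int' M _).const_mul _) hi,
    intervalIntegral.integral_const_mul,
    intervalIntegral.integral_finsetSum fun l _ => Li_int' l w] at key
  simp only [Iw]
  linarith

theorem liS : LiStmt :=
  ⟨fun w k => ⟨coef_nonneg w k, (le_abs_self _).trans (abs_coef w k)⟩,
    fun u v w hu hv hw => ⟨sh_good u v hu hv w hw, sh_len u v w hw, sh_dep u v w hw⟩, sh_card,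
    Li_shuffle, fun _ _ hu hv hu' hv' => ⟨zx_shuffle hu hv hu' hv', sh_head hu' hv'⟩,
    fun _ => zx_pos, Li_int, Iw_nil, fun M _ => Iw_false M, fun M _ => Iw_true M⟩

end Pool.Agent.MP_807c24_nt.H47
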