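import Pool.Agent.MP_807c24_nt.H28.Spec

/-! Power series with bounded coefficients. -/

namespace Pool.Agent.MP_807c24_nt.H47

open Finset Pool.Agent.MP_807c24_nt.H28

lemma summable_abs {c : ℕ → ℝ} {C s : ℝ} (hc : ∀ k, |c k| ≤ C) (hs : |s| < 1) :
    Summable fun k => |c k * s ^ k| := by
  refine Summable.of_nonneg_of_le (fun _ => abs_nonneg _) (fun k => ?_)
    ((summable_geometric_of_lt_one (abs_nonneg s) hs).mul_left C)
  rw [abs_mul, abs_pow]
  exact mul_le_mul_of_nonneg_right (hc k) (by positivity)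

lemma summable_deriv {ρ : ℝ} (h0 : 0 ≤ ρ) (h1 : ρ < 1) :
    Summable fun k : ℕ => (k : ℝ) * ρ ^ (k - 1) := by
  rw [← summable_nat_add_iff 1]
  have h2 : Summable fun k : ℕ => (k : ℝ) ^ 1 * ρ ^ k :=
    summable_pow_mul_geometric_of_norm_lt_one 1 (by rwa [Real.norm_of_nonneg h0])
  refine (h2.add (summable_geometric_of_lt_one h0 h1)).congr fun k => ?_
  simp only [Nat.add_sub_cancel]
  push_cast
  ring

lemma ser_deriv {d : ℕ → ℝ} {C s : ℝ} (hd : ∀ k, |d k| ≤ C) (hs : |s| < 1) :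
    HasDerivAt (ser d) (∑' k : ℕ, ((k : ℝ) + 1) * d (k + 1) * s ^ k) s := by
  obtain ⟨ρ, h1, h2⟩ := exists_between hs
  have h0 : 0 < ρ := (abs_nonneg s).trans_lt h1
  have hb : ∀ (k : ℕ) (y : ℝ), y ∈ Set.Ioo (-ρ) ρ →
      ‖d k * ((k : ℝ) * y ^ (k - 1))‖ ≤ C * ((k : ℝ) * ρ ^ (k - 1)) := by
    intro k y hy
    rw [Real.norm_eq_abs, abs_mul, abs_mul, abs_pow, Nat.abs_cast]
    have : |y| ≤ ρ := (abs_lt.2 hy).le
    exact mul_le_mul (hd k) (by gcongr) (by positivity) ((abs_nonneg _).trans (hd k))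
  have hu := (summable_deriv h0.le h2).mul_left C
  have key := hasDerivAt_tsum_of_isPreconnected (g := fun k y => d k * y ^ k)
    (g' := fun k y => d k * ((k : ℝ) * y ^ (k - 1))) hu isOpen_Ioo isPreconnected_Ioo
    (fun k y _ => (hasDerivAt_pow k y).const_mul (d k)) hb (abs_lt.1 h1)
    (summable_abs hd hs).of_abs (abs_lt.1 h1)
  have hsum : Summable fun k : ℕ => d k * ((k : ℝ) * s ^ (k - 1)) :=
    Summable.of_norm_bounded hu fun k => hb k s (abs_lt.1 h1)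
  rw [hsum.tsum_eq_zero_add] at key
  refine key.congr_deriv ?_
  simp only [Nat.cast_zero, zero_mul, mul_zero, zero_add, Nat.add_sub_cancel]
  refine tsum_congr fun k => ?_
  push_cast
  ring

lemma ser_contOn {d : ℕ → ℝ} (hd : Summable fun k => |d k|) :
    ContinuousOn (ser d) (Set.Icc 0 1) := by
  refine continuousOn_tsum (fun k => by fun_prop) hd fun k x hx => ?_
  rw [Real.norm_eq_abs, abs_mul, abs_pow, abs_of_nonneg hx.1]
  exact mul_le_of_le_one_right (abs_nonneg _) (pow_le_one₀ hx.1 hx.2)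

lemma ser_zero (d : ℕ → ℝ) : ser d 0 = d 0 := by
  rw [ser, tsum_eq_single 0]
  · simp
  · intro k hk
    simp [hk]

lemma abs_op0 {c : ℕ → ℝ} {C : ℝ} (hc : ∀ k, |c k| ≤ C) (k : ℕ) : |op0 c k| ≤ C := by
  rcases Nat.eq_zero_or_pos k with rfl | hk
  · simpa [op0] using (abs_nonneg _).trans (hc 0)
  · rw [op0, abs_div, Nat.abs_cast]
    exact (div_le_self (abs_nonneg _) (by exact_mod_cast hk)).trans (hc k)

lemma abs_op1 {c : ℕ → ℝ} {C : ℝ} (hc : ∀ k, |c k| ≤ C) (k : ℕ) : |op1 c k| ≤ C := by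
  rcases Nat.eq_zero_or_pos k with rfl | hk
  · simpa [op1] using (abs_nonneg _).trans (hc 0)
  · rw [op1, abs_div, Nat.abs_cast, div_le_iff₀ (by exact_mod_cast hk)]
    refine (abs_sum_le_sum_abs _ _).trans ((sum_le_sum fun j _ => hc j).trans_eq ?_)
    simp [mul_comm]

lemma deriv_op0 {c : ℕ → ℝ} {C s : ℝ} (hc : ∀ k, |c k| ≤ C) (hs : s ∈ Set.Ioo (0:ℝ) 1) :
    HasDerivAt (ser (op0 c)) ((ser c s - c 0) / s) s := by
  have hs' : |s| < 1 := by rw [abs_of_pos hs.1]; exact hs.2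
  convert ser_deriv (abs_op0 hc) hs' using 1
  rw [ser, (summable_abs hc hs').of_abs.tsum_eq_zero_add, div_eq_iff hs.1.ne', ← tsum_mul_right]
  simp only [pow_zero, mul_one, add_sub_cancel_left]
  refine tsum_congr fun k => ?_
  rw [op0]
  push_cast
  field_simp
  ring

lemma deriv_op1 {c : ℕ → ℝ} {C s : ℝ} (hc : ∀ k, |c k| ≤ C) (hs : s ∈ Set.Ioo (0:ℝ) 1) :
    HasDerivAt (ser (op1 c)) (ser c s / (1 - s)) s := by
  have hs' : |s| < 1 := by rw [abs_of_pos hs.1]; exact hs.2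
  convert ser_deriv (abs_op1 hc) hs' using 1
  have hg : Summable fun k : ℕ => ‖s ^ k‖ := by
    simpa [abs_of_pos hs.1] using summable_geometric_of_lt_one hs.1.le hs.2
  rw [div_eq_mul_inv, ← tsum_geometric_of_lt_one hs.1.le hs.2, ser,
    tsum_mul_tsum_eq_tsum_sum_range_of_summable_norm (summable_abs hc hs') hg]
  refine tsum_congr fun k => ?_
  have : ((k : ℝ) + 1) * op1 c (k + 1) = ∑ j ∈ range (k + 1), c j := by
    rw [op1]
    push_cast
    field_simp
  rw [this, sum_mul]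
  refine sum_congr rfl fun j hj => ?_
  rw [mul_assoc, ← pow_add, Nat.add_sub_cancel' (Nat.lt_succ_iff.1 (mem_range.1 hj))]

theorem serS : SerStmt := fun _ _ hc => ⟨abs_op0 hc, abs_op1 hc, fun s hs =>
  ⟨summable_abs hc (by rw [abs_of_pos hs.1]; exact hs.2), deriv_op0 hc hs, deriv_op1 hc hs⟩⟩

end Pool.Agent.MP_807c24_nt.H47
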